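import Pool.Agent.H.MP_4881ff_pr.J

namespace Pool.Agent.Results.MP_4881ff_pr.Full
open MeasureTheory ProbabilityTheory Filter Pool.Agent.H.MP_4881ff_pr

theorem result (d : ℕ) (hd : 1 ≤ d) (P : (ℕ → ℝ) → Measure ((ℕ → Bool) × (ℕ → Fin d × Bool)))
    (hP : ∀ r, P r = (Measure.infinitePi fun n => ENNReal.ofReal (r n) • Measure.dirac true +
        ENNReal.ofReal (1 - r n) • Measure.dirac false).prod
      (Measure.infinitePi fun _ => uniformOn Set.univ)) :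
    (∀ r : ℕ → ℝ, (∀ n, 0 ≤ r n ∧ r n ≤ 1) → IsProbabilityMeasure (P r)) ∧
    ((∀ p p' : ℕ → ℝ, (∀ n, 0 ≤ p n ∧ p n ≤ 1) → (∀ n, 0 ≤ p' n ∧ p' n ≤ 1) → (∀ n, p' n ≤ p n) →
      (∀ᵐ ω ∂P p, Tendsto (fun n => √(∑ c, (walk ω.1 ω.2 n c : ℝ) ^ 2)) atTop atTop) →
      ∀ᵐ ω ∂P p', Tendsto (fun n => √(∑ c, (walk ω.1 ω.2 n c : ℝ) ^ 2)) atTop atTop) ↔ d ≠ 2) := by
  have : NeZero d := ⟨by omega⟩
  simp only [hP]
  refine ⟨fun r hr => ?_, fun H e => ?_, fun h2 p p' hp hp' h H => ?_⟩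
  · have := fun n => ber_prob (hr n)
    exact inferInstanceAs (IsProbabilityMeasure
      ((Measure.infinitePi fun n => ber (r n)).prod (nu d)))
  · subst e
    exact two.2 (H _ _ (pp_bd id) (pp_bd _) pp_le two.1)
  · by_cases e : 3 ≤ d
    · exact main3 e _
    · obtain rfl : d = 1 := by omega
      exact one p p' hp hp' h H

end Pool.Agent.Results.MP_4881ff_pr.Full
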